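import Pool.Agent.Run7.h966.FD.G2
import Pool.Agent.Run7.h966.FD.C1

/-!
# Hasse-Weil L-functions: a criterion for parts (a), (b), (d) with simple zeros, without assuming (a) or (b)

Let `X` be projective and smooth over `ℤ[1/N]`, `i` a degree of cohomology.  NOTHING is assumed on the continuation of
the L-function.  Fix `r ≤ b_i` (the order of the pole at `s = i/2 + 1`; `r = 0` if there is none), `A ≥ 1`, and let

`completed(s) = ((s - i/2) (s - i/2 - 1))^r A^(s/2) Γ_i(s) L(i; X, s)`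

be the completed Euler product, in the half-plane of convergence.  For `a > 0` let `W a` be Weil's quadratic form for
`(X, i)` on the functions `f` supported in `[-a, a]`,

`W a f = 2 r Re(F(-i/2) conj F(i/2)) + (1/2π) ∫ (log A + 2 Re (Γ_i'/Γ_i)((i+1)/2 + i t)) |F(t)|² dt`
`   - 2 Re ∑_{n = p^k ≤ e^(2 a)} log p · tr(Frob_p^k) n^(-(i+1)/2) ∫ f(x + log n) conj f(x) dx`,

`F(z) = ∫ f(x) e^(i z x) dx`: it contains the gamma factor, `A` and the local polynomials at the primes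
`p ≤ e^(2 a)`, and needs no continuation.  We minimise it relative to the mass `∫_S |F(t)|² dt` on a window `S`
(compact, `-S = S`, with interior points).

RESULT.
1. (structure, for EVERY `(X, i)`) For every window `S` and every `a > 0` the Fourier transforms of the minimisers are the
   multiples `p E_a` of one entire function `E_a` by the polynomials `p` of degree less than `d_a`; `E_a` is real on the
   real line, even or odd, and ALL ITS ZEROS ARE REAL AND SIMPLE; it is unique up to a factor.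
2. (criterion) The completed L-function extends to an entire function `Λ` of finite order with
   `Λ(s) = ± Λ(i + 1 - s)`, all zeros of `Λ` are simple, on the line `Re s = (i+1)/2`, and none is
   `(i+1)/2 + i t` with `t ∈ S`, IF AND ONLY IF for every real `y ≥ 2`
   `E_a(-i y) / E_a(-2 i) → completed((i+1)/2 + y) / completed((i+1)/2 + 2)`, `a → ∞`,
   (values of the Euler product in its half-plane of convergence; the left side is a quotient of integrals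
   `∫ f(x) e^(y x) dx` for a minimiser `f`), and for `t ∈ S` the quotient `E_a(t) / E_a(-2 i)` does not tend to zero.
3. So parts (a), (b) (with these `r`, `A`), (d) hold for `(X, i)` and all zeros are simple if and only if this
   convergence holds for some window.
(`E_a` for a given `Λ` as in (a), (b): `GroundStatesConverge` of this page. Here `Λ` is not given.)
-/

set_option autoImplicit false
set_option maxHeartbeats 2000000
set_option linter.unusedVariables false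

namespace Pool.Agent.Results.MP_7193be_nt.ContinuationCriterion

open Complex Polynomial MeasureTheory Filter Topology
open scoped ComplexConjugate
open Pool.Agent.Run7.h336.CB.S (F Window Describes)

/-- The Betti number `b_i = 2 ∑_{p < q, p + q = i} h^{p,q} + h^{m,+} + h^{m,-}` (the last two for
`i = 2m`), where `hodge p = h^{p, i-p}`. -/
def bettiOf (i : ℕ) (hodge : ℕ → ℕ) (plus minus : ℕ) : ℕ :=
  2 * ∑ p ∈ Finset.range ((i + 1) / 2), hodge p + (if Even i then plus + minus else 0)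

/-- What enters of the cohomology `H^i` of a projective smooth scheme `X` over `ℤ[1/N]` in the Hasse-Weil
L-function `L(i; X, s)` and its gamma factor. -/
structure Cohomology (i : ℕ) where
  /-- the integer `N`: good reduction for `p ∤ N` -/
  N : ℕ
  /-- the Hodge numbers `hodge p = h^{p, i - p}` for `2 p < i` -/
  hodge : ℕ → ℕ
  /-- `h^{m,+}` for `i = 2m` -/
  plus : ℕ
  /-- `h^{m,-}` for `i = 2m` -/
  minus : ℕ
  /-- `P_i(X(p), T)` for `p ∤ N`, and `det(1 - Frob_p T | H^i(X)^{I_p})` for `p ∣ N` -/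
  P : ℕ → ℤ[X]
  N_pos : 0 < N
  betti_pos : 0 < bettiOf i hodge plus minus
  const : ∀ p : ℕ, p.Prime → (P p).coeff 0 = 1
  degree_good : ∀ p : ℕ, p.Prime → ¬ p ∣ N → (P p).natDegree = bettiOf i hodge plus minus
  degree_bad : ∀ p : ℕ, p.Prime → p ∣ N → (P p).natDegree ≤ bettiOf i hodge plus minus
  roots_good : ∀ p : ℕ, p.Prime → ¬ p ∣ N → ∀ z : ℂ, aeval z (P p) = 0 →
    ‖z‖ = (p : ℝ) ^ (-((i : ℝ) / 2))
  roots_bad : ∀ p : ℕ, p.Prime → p ∣ N → ∀ z : ℂ, aeval z (P p) = 0 →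
    (p : ℝ) ^ (-(((i : ℝ) + 1) / 2)) ≤ ‖z‖

namespace Cohomology

variable {i : ℕ} (V : Cohomology i)

/-- the Betti number `b_i` -/
def betti : ℕ := bettiOf i V.hodge V.plus V.minus

/-- the L-function (with the factors at the primes dividing `N`) in the half-plane of convergence -/
noncomputable def L (s : ℂ) : ℂ :=
  ∏' p : Nat.Primes, (aeval (((p : ℕ) : ℂ) ^ (-s)) (V.P p))⁻¹

/-- the gamma factor `Γ_i(s) = ∏_{p<q} Γ_ℂ(s-p)^{h^{p,q}} Γ_ℝ(s-m)^{h^{m,+}} Γ_ℝ(s-m+1)^{h^{m,-}}`, the last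
two factors for `i = 2m` only -/
noncomputable def gammaFactor (s : ℂ) : ℂ :=
  (∏ p ∈ Finset.range ((i + 1) / 2), Gammaℂ (s - p) ^ V.hodge p) *
    (if Even i then Gammaℝ (s - (i : ℂ) / 2) ^ V.plus * Gammaℝ (s - (i : ℂ) / 2 + 1) ^ V.minus
      else 1)

/-- The trace of `Frob_p^k` at `n = p^k`: the sum of `z^(-k)` over the complex roots `z` of `P_p`, with
multiplicities; zero if `n` is not a power of a prime. -/
noncomputable def trace (n : ℕ) : ℂ :=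
  if IsPrimePow n then (((V.P n.minFac).map (algebraMap ℤ ℂ)).roots.map
    fun z => (z ^ (n.factorization n.minFac))⁻¹).sum else 0

/-- the completed L-function without its poles, `((s - i/2) (s - i/2 - 1))^r A^(s/2) Γ_i(s) L(i; X, s)`, in the
half-plane of convergence of the Euler product -/
noncomputable def completed (r : ℕ) (A : ℝ) (s : ℂ) : ℂ :=
  ((s - (i : ℂ) / 2) * (s - (i : ℂ) / 2 - 1)) ^ r * ((A : ℂ) ^ (s / 2) * V.gammaFactor s * V.L s)

/-- Parts (a), (b) hold with `Λ`: it is entire, of finite order, `Λ(s) = ± Λ(i + 1 - s)`, and it agrees with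
`completed` on a half-plane. -/
structure Continued (r : ℕ) (A : ℝ) (Λ : ℂ → ℂ) : Prop where
  entire : Differentiable ℂ Λ
  order : ∃ c ρ : ℝ, ∀ s : ℂ, ‖Λ s‖ ≤ Real.exp (c * (1 + ‖s‖) ^ ρ)
  fe : ∃ ε : ℝ, (ε = 1 ∨ ε = -1) ∧ ∀ s : ℂ, Λ s = ε * Λ (i + 1 - s)
  eq : ∃ σ : ℝ, ∀ s : ℂ, σ ≤ s.re → Λ s = V.completed r A s

/-- (a), (b), (d) hold with `Λ`, and all zeros of `Λ` are simple -/
structure Simple (r : ℕ) (A : ℝ) (Λ : ℂ → ℂ) : Prop extends V.Continued r A Λ where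
  line : ∀ s, Λ s = 0 → s.re = ((i : ℝ) + 1) / 2
  simple : ∀ s, Λ s = 0 → deriv Λ s ≠ 0

/-- `E_a(-i y) / E_a(-2 i) → completed((i+1)/2 + y) / completed((i+1)/2 + 2)` for real `y ≥ 2`, and
`E_a(t) / E_a(-2 i)` does not tend to zero for `t ∈ S` -/
def HalfLine (r : ℕ) (A : ℝ) (S : Set ℝ) (E : ℝ → ℂ → ℂ) : Prop :=
  (∀ y : ℝ, 2 ≤ y → Tendsto (fun a => E a (-(I * y)) / E a (-(I * 2))) atTop
    (𝓝 (V.completed r A (((i : ℂ) + 1) / 2 + y) / V.completed r A (((i : ℂ) + 1) / 2 + 2)))) ∧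
  ∀ t : ℝ, t ∈ S → ¬ Tendsto (fun a => E a t / E a (-(I * 2))) atTop (𝓝 0)

/-- Weil's quadratic form of `L(i; X, s)` for functions supported in `[-a, a]`: the poles, the gamma factor and
the conductor `A`, and the powers `n ≤ exp (2 a)` of primes. -/
noncomputable def W (r : ℕ) (A : ℝ) (a : ℝ) (f : ℝ → ℂ) : ℝ :=
  2 * r * (F f (-(I / 2)) * conj (F f (I / 2))).re +
    1 / (2 * Real.pi) * (∫ t : ℝ, (Real.log A + 2 * (logDeriv V.gammaFactor (((i : ℂ) + 1) / 2 + I * t)).re) *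
      ‖F f t‖ ^ 2) -
    2 * (∑ n ∈ Finset.Icc 1 ⌊Real.exp (2 * a)⌋₊, ArithmeticFunction.vonMangoldt n * V.trace n /
      (((n : ℝ) ^ (((i : ℝ) + 1) / 2) : ℝ) : ℂ) * ∫ x : ℝ, f (x + Real.log n) * conj (f x)).re

end Cohomology

open Y23.G Y23.G.CB Run7.h833.GW Pool.Agent.TH839.UH Pool.Agent.TH839.NA Run7.h966.FD

/-- the archimedean density -/
lemma arch {m : ℕ} {A : ℝ} (hA : 1 ≤ A) {a' : Fin m → ℂ} (ha : ∀ j, 0 ≤ (a' j).re) {γ : ℂ → ℂ} {c : ℂ}
    (hγ : ∀ z : ℂ, (∏ j, Gammaℝ (z + a' j)) = γ (z + c)) (t : ℝ) :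
    2 * (H353.E.gaD A (fun j => -a' j) (⟨1 / 2, t⟩ : ℂ)).re =
      Real.log A + 2 * (logDeriv γ (1 / 2 + c + I * t)).re := by
  set s : ℂ := ⟨1 / 2, t⟩ with hs
  have hre : ∀ j, 0 < (s - (fun j => -a' j) j).re := by
    intro j
    have := ha j
    simp only [sub_neg_eq_add, Complex.add_re]
    show 0 < (1 / 2 : ℝ) + (a' j).re
    linarith
  have h1 := H353.E.gaf_der (N := 1) one_pos hre
  have e1 : ∀ z : ℂ, H353.E.gaf 1 (fun j => -a' j) z = γ (z + c) := by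
    intro z
    rw [← hγ]
    unfold H353.E.gaf
    simp only [sub_neg_eq_add, Complex.ofReal_one, Complex.one_cpow, one_mul]
  have e2 : H353.E.gaf 1 (fun j => -a' j) = fun z => γ (z + c) := funext e1
  rw [e2] at h1
  have h2 : HasDerivAt γ (γ (s + c) * H353.E.gaD 1 (fun j => -a' j) s) (s + c) := by
    have h3 : HasDerivAt (fun w : ℂ => w - c) 1 (s + c) := (hasDerivAt_id _).sub_const c
    have h4 : HasDerivAt (fun z => γ (z + c)) (γ (s + c) * H353.E.gaD 1 (fun j => -a' j) s) ((s + c) - c) := by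
      rw [add_sub_cancel_right]
      exact h1
    have h5 := HasDerivAt.comp (s + c) h4 h3
    rw [mul_one] at h5
    refine h5.congr_of_eventuallyEq (Eventually.of_forall fun w => ?_)
    simp
  have hne : γ (s + c) ≠ 0 := by
    rw [← hγ]
    refine Finset.prod_ne_zero_iff.2 fun j _ => Complex.Gammaℝ_ne_zero_of_re_pos ?_
    have := hre j
    simpa using this
  have h3 : logDeriv γ (s + c) = H353.E.gaD 1 (fun j => -a' j) s := by
    rw [logDeriv_apply, h2.deriv, mul_div_cancel_left₀ _ hne]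
  have e3 : (1 / 2 + c + I * t : ℂ) = s + c := by
    rw [hs]
    have : (⟨1 / 2, t⟩ : ℂ) = 1 / 2 + I * t := by
      apply Complex.ext <;> simp
    rw [this]
    ring
  rw [e3, h3]
  unfold H353.E.gaD
  simp only [Real.log_one, zero_div, Complex.ofReal_zero, zero_add, Complex.add_re, Complex.ofReal_re]
  ring

/-- windows exist -/
lemma exists_window {X : ℂ → ℂ} (hX : Differentiable ℂ X) (hne : ∃ z, X z ≠ 0) :
    ∃ S : Set ℝ, Window S ∧ ∀ t ∈ S, X t ≠ 0 := by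
  obtain ⟨z1, hz1⟩ := hne
  have hGa : AnalyticOnNhd ℂ X Set.univ := fun z _ => hX.analyticAt z
  have hiso : ∀ᶠ z in 𝓝[≠] (0 : ℂ), X z ≠ 0 := by
    rcases (hX.analyticAt 0).eventually_eq_zero_or_eventually_ne_zero with h | h
    · exact absurd (hGa.eqOn_zero_of_preconnected_of_eventuallyEq_zero
        isPreconnected_univ (Set.mem_univ 0) h (Set.mem_univ z1)) hz1
    · exact h
  rw [eventually_nhdsWithin_iff, Metric.eventually_nhds_iff] at hiso
  obtain ⟨ε, hε, hε2⟩ := hiso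
  refine ⟨Set.Icc (-(ε / 2)) (-(ε / 3)) ∪ Set.Icc (ε / 3) (ε / 2), ⟨isCompact_Icc.union isCompact_Icc, fun t ht => ?_, ?_⟩,
    fun t ht => ?_⟩
  · rcases ht with ht | ht
    · exact Or.inr ⟨by linarith [ht.2], by linarith [ht.1]⟩
    · exact Or.inl ⟨by linarith [ht.2], by linarith [ht.1]⟩
  · refine ⟨5 * ε / 12, interior_mono Set.subset_union_right ?_⟩
    rw [interior_Icc]
    constructor <;> linarith
  · have h1 : |t| < ε ∧ t ≠ 0 := by
      rcases ht with ht | ht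
      · have h2 := ht.1
        have h3 := ht.2
        refine ⟨by rw [abs_lt]; constructor <;> linarith, by intro h; rw [h] at h3; linarith⟩
      · have h2 := ht.1
        have h3 := ht.2
        refine ⟨by rw [abs_lt]; constructor <;> linarith, by intro h; rw [h] at h2; linarith⟩
    refine hε2 ?_ ?_
    · rw [dist_zero_right, Complex.norm_real, Real.norm_eq_abs]
      exact h1.1
    · show (t : ℂ) ≠ 0
      exact_mod_cast h1.2


variable {i : ℕ} {V : Cohomology i} {r : ℕ} {A : ℝ} {Λ : ℂ → ℂ}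

/-- the data in the normalised variable -/
structure Data (V : Cohomology i) (r : ℕ) (A : ℝ) (a' : Fin V.betti → ℂ) (α : Nat.Primes → Fin V.betti → ℂ) (κ : ℝ) :
    Prop where
  pos : 0 < κ
  bd : ∀ p j, ‖α p j‖ ≤ ((p : ℕ) : ℝ) ^ (1 / 2 : ℝ)
  sh : ∀ j, 0 ≤ (a' j).re ∧ (a' j).im = 0
  ga : ∀ z : ℂ, (∏ j, Gammaℝ (z + a' j)) = V.gammaFactor (z + (i : ℂ) / 2)
  tr : ∀ (p : Nat.Primes) (k : ℕ), ∑ j, α p j ^ (k + 1) = (((p : ℕ) : ℂ) ^ (-((i : ℂ) / 2))) ^ (k + 1) *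
        (((V.P p).map (algebraMap ℤ ℂ)).roots.map fun z => (z ^ (k + 1))⁻¹).sum
  form : ∀ z : ℂ, (κ : ℂ) * V.completed r A (z + (((i : ℝ) / 2 : ℝ) : ℂ)) =
        (z * (z - 1)) ^ r * ((A : ℂ) ^ (z / 2) * ∏ j, Gammaℝ (z + a' j)) * EP.E α z
  hw : ∀ Λ : ℂ → ℂ, V.Continued r A Λ → EP.HW V.betti r A a' α (fun z => (κ : ℂ) * Λ (z + (((i : ℝ) / 2 : ℝ) : ℂ)))

lemma data (V : Cohomology i) (hr : r ≤ V.betti) (hA : 1 ≤ A) : ∃ (a' : Fin V.betti → ℂ)
    (α : Nat.Primes → Fin V.betti → ℂ) (κ : ℝ), Data V r A a' α κ := by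
  obtain ⟨a', α, κ, h1, h2, h3, h4, h5, h6, h7⟩ := Run7.h966.FD.Coh.coh_data (i := i) (h := V.hodge) (a := V.plus)
    (b := V.minus) (P := V.P) (m := V.betti) (A := A) (r := r) rfl V.betti_pos V.const
    (fun p hp => by
      by_cases hpN : p ∣ V.N
      · exact V.degree_bad p hp hpN
      · exact (V.degree_good p hp hpN).le)
    (fun p hp z hz => by
      by_cases hpN : p ∣ V.N
      · exact V.roots_bad p hp hpN z hz
      · rw [V.roots_good p hp hpN z hz]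
        exact Real.rpow_le_rpow_of_exponent_le (by exact_mod_cast hp.one_le) (by linarith)) hA hr
  exact ⟨a', α, κ, h1, h2, h3, h4, h5, h6, fun Λ h => h7 Λ h.entire h.order h.fe h.eq⟩

/-- the power sums are real -/
lemma roots_real (P : ℤ[X]) (k : ℕ) :
    ((((P.map (algebraMap ℤ ℂ)).roots.map fun z => (z ^ (k + 1))⁻¹).sum)).im = 0 := by
  rw [← Complex.conj_eq_iff_im]
  set Q := P.map (algebraMap ℤ ℂ) with hQ
  have h1 : Q.map (starRingEnd ℂ) = Q := by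
    rw [hQ, Polynomial.map_map]
    congr 1
    exact RingHom.ext_int _ _
  have h2 : Q.roots.map (starRingEnd ℂ) = Q.roots := by
    rw [← (IsAlgClosed.splits Q).roots_map (starRingEnd ℂ), h1]
  rw [map_multiset_sum, Multiset.map_map]
  conv_rhs => rw [← h2, Multiset.map_map]
  congr 1
  refine Multiset.map_congr rfl fun z _ => ?_
  simp

lemma pow_real (p : Nat.Primes) (i j : ℕ) : (((p : ℕ) : ℂ) ^ (-((i : ℂ) / 2))) ^ (j + 1) =
    (((((p : ℕ) ^ (j + 1) : ℕ) : ℝ) ^ (-((i : ℝ) / 2)) : ℝ) : ℂ) := by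
  have hp0 : (0 : ℝ) < ((p : ℕ) : ℝ) := by exact_mod_cast p.2.pos
  have e6 : (((p : ℕ) : ℂ)) ^ (-((i : ℂ) / 2)) = ((((p : ℕ) : ℝ) ^ (-((i : ℝ) / 2)) : ℝ) : ℂ) := by
    rw [Complex.ofReal_cpow hp0.le]
    push_cast
    rfl
  rw [e6, ← Complex.ofReal_pow]
  congr 1
  push_cast
  rw [← Real.rpow_natCast, ← Real.rpow_natCast, ← Real.rpow_mul hp0.le, ← Real.rpow_mul hp0.le, mul_comm]

variable {a' : Fin V.betti → ℂ} {α : Nat.Primes → Fin V.betti → ℂ} {κ : ℝ}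

lemma cE_real (h : Data V r A a' α κ) (n : ℕ) : (cE α n).im = 0 := by
  by_cases hpp : IsPrimePow n
  · obtain ⟨p, k, hp, hk, rfl⟩ := (isPrimePow_nat_iff n).1 hpp
    obtain ⟨j, rfl⟩ : ∃ j, k = j + 1 := ⟨k - 1, by omega⟩
    have h1 : cE α (p ^ (j + 1)) = ∑ l, α ⟨p, hp⟩ l ^ (j + 1) := cE_pow α ⟨p, hp⟩ j
    rw [h1, h.tr ⟨p, hp⟩ j, pow_real ⟨p, hp⟩ i j, Complex.im_ofReal_mul, roots_real, mul_zero]
  · have h1 : cE α n = 0 := dif_neg hpp
    rw [h1, Complex.zero_im]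

/-- Weil's form by its normalised formula -/
lemma W_eq (hA : 1 ≤ A) (h : Data V r A a' α κ) (a : ℝ) (f : ℝ → ℂ) :
    V.W r A a f = WF V.betti r A a' (cE α) a f := by
  have e1 : F f (-(I / 2)) = Y23.TT f (1 / 2) := by
    rw [Run7.h336.CB.S.F_eq]
    congr 1
    linear_combination (-1 / 2 : ℂ) * Complex.I_mul_I
  have e2 : F f (I / 2) = Y23.TT f (-(1 / 2)) := by
    rw [Run7.h336.CB.S.F_eq]
    congr 1
    linear_combination (1 / 2 : ℂ) * Complex.I_mul_I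
  have e3 : ∀ t : ℝ, Real.log A + 2 * (logDeriv V.gammaFactor (((i : ℂ) + 1) / 2 + I * t)).re =
      2 * (H353.E.gaD A (fun j => -a' j) (⟨1 / 2, t⟩ : ℂ)).re := by
    intro t
    have h1 := arch hA (fun j => (h.sh j).1) h.ga t
    rw [show (1 / 2 + (i : ℂ) / 2 + I * t : ℂ) = ((i : ℂ) + 1) / 2 + I * t by ring] at h1
    rw [← h1]
  have e4 : ∀ n ∈ Finset.Icc 1 ⌊Real.exp (2 * a)⌋₊,
      ((ArithmeticFunction.vonMangoldt n : ℝ) : ℂ) * V.trace n / (((n : ℝ) ^ (((i : ℝ) + 1) / 2) : ℝ) : ℂ) *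
        (∫ x : ℝ, f (x + Real.log n) * conj (f x)) =
      (((ArithmeticFunction.vonMangoldt n : ℝ) : ℂ) * (cE α n * pw (-(1 / 2)) n)) *
        ∫ x : ℝ, f (x + Real.log n) * conj (f x) := by
    intro n hn
    have hn1 := (Finset.mem_Icc.1 hn).1
    have hn0 : (0 : ℝ) < n := by exact_mod_cast hn1
    congr 1
    by_cases hpp : IsPrimePow n
    · obtain ⟨p, k, hp, hk, rfl⟩ := (isPrimePow_nat_iff n).1 hpp
      obtain ⟨j, rfl⟩ : ∃ j, k = j + 1 := ⟨k - 1, by omega⟩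
      have h1 : cE α (p ^ (j + 1)) = ∑ l, α ⟨p, hp⟩ l ^ (j + 1) := cE_pow α ⟨p, hp⟩ j
      have h2 := h.tr ⟨p, hp⟩ j
      have h3 : (p ^ (j + 1)).minFac = p := hp.pow_minFac (Nat.succ_ne_zero j)
      have h4 : (p ^ (j + 1)).factorization p = j + 1 := by
        rw [hp.factorization_pow, Finsupp.single_eq_same]
      have h5 : V.trace (p ^ (j + 1)) = (((V.P p).map (algebraMap ℤ ℂ)).roots.map
          fun z => (z ^ (j + 1))⁻¹).sum := by
        unfold Cohomology.trace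
        rw [if_pos hpp, h3, h4]
      have hp0 : (0 : ℝ) < p := by exact_mod_cast hp.pos
      have h7 : (((p ^ (j + 1) : ℕ) : ℝ) ^ (-((i : ℝ) / 2))) * (((p ^ (j + 1) : ℕ) : ℝ) ^ (-(1 / 2 : ℝ))) =
          ((((p ^ (j + 1) : ℕ) : ℝ) ^ (((i : ℝ) + 1) / 2)))⁻¹ := by
        rw [← Real.rpow_add hn0, ← Real.rpow_neg hn0.le]
        congr 1
        ring
      rw [h1, h2, h5, pow_real ⟨p, hp⟩ i j]
      unfold TH839.NA.pw
      rw [div_eq_mul_inv, ← Complex.ofReal_inv, ← h7]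
      push_cast
      ring
    · have h1 : cE α n = 0 := dif_neg hpp
      have h2 : V.trace n = 0 := if_neg hpp
      rw [h1, h2]
      simp
  unfold Cohomology.W WF
  rw [Finset.sum_congr rfl e4]
  simp only [e1, e2, Run7.h336.CB.S.F_real, e3]

lemma hhalf (i : ℕ) : (((i : ℝ) / 2 : ℝ) : ℂ) = (i : ℂ) / 2 := by push_cast; rfl

/-- the completed Euler product in the normalised variable -/
lemma PP_eq (h : Data V r A a' α κ) {y : ℝ} (hy : 2 ≤ y) :
    PP V.betti r A a' (bR (cE α)) (1 / 2 + y) = κ * V.completed r A (((i : ℂ) + 1) / 2 + y) := by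
  have h1 := h.form (1 / 2 + y)
  rw [hhalf, show (1 / 2 + (y : ℂ) + (i : ℂ) / 2) = ((i : ℂ) + 1) / 2 + y by ring] at h1
  rw [h1, E_eq h.bd (by
    rw [Complex.add_re, Complex.ofReal_re]
    norm_num
    linarith)]
  rfl

lemma halfLine_iff (h : Data V r A a' α κ) {S : Set ℝ} {E : ℝ → ℂ → ℂ} :
    V.HalfLine r A S E ↔ Run7.h966.FD.HalfLine E S (PP V.betti r A a' (bR (cE α))) := by
  have hκ : (κ : ℂ) ≠ 0 := by exact_mod_cast h.pos.ne'
  have e : ∀ y : ℝ, 2 ≤ y → PP V.betti r A a' (bR (cE α)) (1 / 2 + y) / PP V.betti r A a' (bR (cE α)) (1 / 2 + 2) =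
      V.completed r A (((i : ℂ) + 1) / 2 + y) / V.completed r A (((i : ℂ) + 1) / 2 + 2) := by
    intro y hy
    have h2 := PP_eq h (y := 2) le_rfl
    rw [Complex.ofReal_ofNat] at h2
    rw [PP_eq h hy, h2, mul_div_mul_left _ _ hκ]
  unfold Cohomology.HalfLine Run7.h966.FD.HalfLine
  refine and_congr (forall₂_congr fun y hy => ?_) Iff.rfl
  rw [e y hy]

lemma cond (h : Data V r A a' α κ) : (∀ j, -1 / 2 < (a' j).re) ∧ (∀ j, (a' j).im = 0) :=
  ⟨fun j => by have := (h.sh j).1; linarith, fun j => (h.sh j).2⟩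

/-- from a continuation to the normalised form -/
lemma good_of (h : Data V r A a' α κ) {S : Set ℝ} (hΛ : V.Simple r A Λ)
    (hw : ∀ t : ℝ, t ∈ S → Λ (((i : ℂ) + 1) / 2 + I * t) ≠ 0) :
    Good S V.betti r A a' (bR (cE α)) (cE α) (fun z => (κ : ℂ) * Λ (z + (((i : ℝ) / 2 : ℝ) : ℂ))) := by
  have hκ : (κ : ℂ) ≠ 0 := by exact_mod_cast h.pos.ne'
  refine ⟨raw_of_hw (h.hw Λ hΛ.toContinued), ?_, fun s hs => ?_, fun s hs => ?_, fun t ht => ?_⟩
  · obtain ⟨ε, hε, hfe⟩ := hΛ.fe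
    have h1 : ∀ s : ℂ, Λ (1 - s + (((i : ℝ) / 2 : ℝ) : ℂ)) = ε * Λ (s + (((i : ℝ) / 2 : ℝ) : ℂ)) := by
      intro s
      rw [hfe, hhalf]
      congr 2
      ring
    rcases hε with rfl | rfl
    · left
      intro s
      show (κ : ℂ) * Λ (1 - s + _) = κ * Λ (s + _)
      rw [h1]; simp
    · right
      intro s
      show (κ : ℂ) * Λ (1 - s + _) = -(κ * Λ (s + _))
      rw [h1]; simp
  · have h1 := hΛ.line _ ((mul_eq_zero.1 hs).resolve_left hκ)
    rw [Complex.add_re, Complex.ofReal_re] at h1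
    linarith
  · have h1 := hΛ.simple _ ((mul_eq_zero.1 hs).resolve_left hκ)
    have h2 : HasDerivAt (fun z => (κ : ℂ) * Λ (z + (((i : ℝ) / 2 : ℝ) : ℂ)))
        ((κ : ℂ) * deriv Λ (s + (((i : ℝ) / 2 : ℝ) : ℂ))) s := by
      refine HasDerivAt.const_mul _ ?_
      exact HasDerivAt.comp_add_const s _ (hΛ.entire _).hasDerivAt
    rw [h2.deriv]
    exact mul_ne_zero hκ h1
  · show (κ : ℂ) * Λ (1 / 2 + I * t + (((i : ℝ) / 2 : ℝ) : ℂ)) ≠ 0
    rw [hhalf, show (1 / 2 + I * (t : ℂ) + (i : ℂ) / 2) = ((i : ℂ) + 1) / 2 + I * t by ring]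
    exact mul_ne_zero hκ (hw t ht)

/-- from the normalised form to a continuation -/
lemma of_good (hA : 1 ≤ A) (h : Data V r A a' α κ) {S : Set ℝ} {X : ℂ → ℂ}
    (hX : Good S V.betti r A a' (bR (cE α)) (cE α) X) : ∃ Λ : ℂ → ℂ, V.Simple r A Λ ∧
      ∀ t : ℝ, t ∈ S → Λ (((i : ℂ) + 1) / 2 + I * t) ≠ 0 := by
  have hκ : (κ : ℂ) ≠ 0 := by exact_mod_cast h.pos.ne'
  have hi0 : (0 : ℝ) ≤ (i : ℝ) / 2 := by positivity
  have hshift : ∀ s : ℂ, s - (i : ℂ) / 2 + (((i : ℝ) / 2 : ℝ) : ℂ) = s := fun s => by rw [hhalf]; ring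
  have hre : ∀ s : ℂ, (s - (i : ℂ) / 2).re = s.re - (i : ℝ) / 2 := fun s => by
    rw [← hhalf, Complex.sub_re, Complex.ofReal_re]
  refine ⟨fun s => (κ : ℂ)⁻¹ * X (s - (i : ℂ) / 2), ⟨⟨?_, ?_, ?_, ?_⟩, fun s hs => ?_, fun s hs => ?_⟩, fun t ht => ?_⟩
  · exact (hX.raw.entire.comp (by fun_prop : Differentiable ℂ fun s : ℂ => s - (i : ℂ) / 2)).const_mul _
  · obtain ⟨c, ρ, hb⟩ := hX.raw.order
    -- the shift
    have hcr : ∀ s : ℂ, c * (1 + ‖s - (i : ℂ) / 2‖) ^ ρ ≤ |c| * ((1 + (i : ℝ) / 2) ^ |ρ| * (1 + ‖s‖) ^ |ρ|) := by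
      intro s
      have h1 : 1 ≤ 1 + ‖s - (i : ℂ) / 2‖ := by linarith [norm_nonneg (s - (i : ℂ) / 2)]
      have h3 : 1 + ‖s - (i : ℂ) / 2‖ ≤ (1 + (i : ℝ) / 2) * (1 + ‖s‖) := by
        have h4 := norm_sub_le s ((i : ℂ) / 2)
        rw [← hhalf, Complex.norm_real, Real.norm_eq_abs, abs_of_nonneg hi0, hhalf] at h4
        nlinarith [norm_nonneg s]
      have h5 : (1 + ‖s - (i : ℂ) / 2‖) ^ ρ ≤ (1 + ‖s - (i : ℂ) / 2‖) ^ |ρ| :=
        Real.rpow_le_rpow_of_exponent_le h1 (le_abs_self ρ)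
      have h6 : (1 + ‖s - (i : ℂ) / 2‖) ^ |ρ| ≤ ((1 + (i : ℝ) / 2) * (1 + ‖s‖)) ^ |ρ| :=
        Real.rpow_le_rpow (by linarith) h3 (abs_nonneg ρ)
      rw [Real.mul_rpow (by linarith) (by linarith [norm_nonneg s])] at h6
      have h7 : 0 ≤ (1 + ‖s - (i : ℂ) / 2‖) ^ ρ := Real.rpow_nonneg (by linarith) _
      calc c * (1 + ‖s - (i : ℂ) / 2‖) ^ ρ ≤ |c| * (1 + ‖s - (i : ℂ) / 2‖) ^ ρ :=
            mul_le_mul_of_nonneg_right (le_abs_self c) h7
        _ ≤ _ := mul_le_mul_of_nonneg_left (h5.trans h6) (abs_nonneg c)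
    refine ⟨|Real.log κ| + |c| * (1 + (i : ℝ) / 2) ^ |ρ|, |ρ|, fun s => ?_⟩
    have h5 : 1 ≤ (1 + ‖s‖) ^ |ρ| := Real.one_le_rpow (by linarith [norm_nonneg s]) (abs_nonneg ρ)
    rw [norm_mul, norm_inv, Complex.norm_real, Real.norm_eq_abs, abs_of_pos h.pos]
    have h6 : κ⁻¹ ≤ Real.exp (|Real.log κ| * (1 + ‖s‖) ^ |ρ|) := by
      rw [← Real.exp_log (inv_pos.2 h.pos), Real.log_inv]
      refine Real.exp_le_exp.2 ?_
      have := neg_le_abs (Real.log κ)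
      have := abs_nonneg (Real.log κ)
      nlinarith
    calc κ⁻¹ * ‖X (s - (i : ℂ) / 2)‖ ≤ Real.exp (|Real.log κ| * (1 + ‖s‖) ^ |ρ|) *
          Real.exp (|c| * ((1 + (i : ℝ) / 2) ^ |ρ| * (1 + ‖s‖) ^ |ρ|)) :=
          mul_le_mul h6 ((hb _).trans (Real.exp_le_exp.2 (hcr s))) (norm_nonneg _) (Real.exp_pos _).le
      _ = _ := by
          rw [← Real.exp_add]
          congr 1
          ring
  · have h1 : ∀ s : ℂ, (i : ℂ) + 1 - s - (i : ℂ) / 2 = 1 - (s - (i : ℂ) / 2) := fun s => by ring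
    rcases hX.fe with h2 | h2
    · refine ⟨1, Or.inl rfl, fun s => ?_⟩
      show (κ : ℂ)⁻¹ * X _ = ((1 : ℝ) : ℂ) * ((κ : ℂ)⁻¹ * X ((i : ℂ) + 1 - s - (i : ℂ) / 2))
      rw [h1, h2]; simp
    · refine ⟨-1, Or.inr rfl, fun s => ?_⟩
      show (κ : ℂ)⁻¹ * X _ = ((-1 : ℝ) : ℂ) * ((κ : ℂ)⁻¹ * X ((i : ℂ) + 1 - s - (i : ℂ) / 2))
      rw [h1, h2]; simp
  · obtain ⟨σ, hσ⟩ := hX.raw.eq
    refine ⟨max σ 2 + (i : ℝ) / 2, fun s hs => ?_⟩
    have hs1 : max σ 2 ≤ (s - (i : ℂ) / 2).re := by rw [hre]; linarith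
    have h3 := h.form (s - (i : ℂ) / 2)
    rw [hshift, E_eq h.bd (by
      have := le_max_right σ 2
      linarith)] at h3
    show (κ : ℂ)⁻¹ * X (s - (i : ℂ) / 2) = _
    rw [hσ _ ((le_max_left _ _).trans hs1), ← h3, ← mul_assoc, inv_mul_cancel₀ hκ, one_mul]
  · have h1 := hX.line _ ((mul_eq_zero.1 hs).resolve_left (inv_ne_zero hκ))
    rw [hre] at h1
    linarith
  · have h1 := hX.simple _ ((mul_eq_zero.1 hs).resolve_left (inv_ne_zero hκ))
    have h2 : HasDerivAt (fun z => (κ : ℂ)⁻¹ * X (z - (i : ℂ) / 2)) ((κ : ℂ)⁻¹ * deriv X (s - (i : ℂ) / 2)) s := by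
      refine HasDerivAt.const_mul _ ?_
      exact HasDerivAt.comp_sub_const s _ (hX.raw.entire _).hasDerivAt
    rw [h2.deriv]
    exact mul_ne_zero (inv_ne_zero hκ) h1
  · show (κ : ℂ)⁻¹ * X (((i : ℂ) + 1) / 2 + I * t - (i : ℂ) / 2) ≠ 0
    rw [show (((i : ℂ) + 1) / 2 + I * (t : ℂ) - (i : ℂ) / 2) = 1 / 2 + I * t by ring]
    exact mul_ne_zero (inv_ne_zero hκ) (hX.window t ht)

/-- a continuation does not vanish identically -/
lemma cont_ne (h : Data V r A a' α κ) (hΛ : V.Continued r A Λ) : Λ (((i : ℂ) + 1) / 2 + I * -(2 * I)) ≠ 0 := by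
  let L : LFun := ⟨V.betti, r, A, a', bR (cE α), cE α, _, raw_of_hw (h.hw Λ hΛ), (cond h).1⟩
  intro h0
  have h1 : L.X (1 / 2 + I * -(2 * I)) ≠ 0 := by
    refine X_ne (L := L) ?_
    have : (1 / 2 + I * -(2 * I) : ℂ) = ((5 / 2 : ℝ) : ℂ) := by
      have := Complex.I_mul_I
      push_cast
      linear_combination (-2) * this
    rw [this, Complex.ofReal_re]
    norm_num
  apply h1
  show (κ : ℂ) * Λ (1 / 2 + I * -(2 * I) + (((i : ℝ) / 2 : ℝ) : ℂ)) = 0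
  rw [hhalf, show (1 / 2 + I * -(2 * I) + (i : ℂ) / 2) = ((i : ℂ) + 1) / 2 + I * -(2 * I) by ring, h0, mul_zero]

/-- **Main theorem.** `V`: the data of the cohomology in degree `i`; nothing is assumed on the continuation. -/
theorem result {i : ℕ} (V : Cohomology i) {r : ℕ} (hr : r ≤ V.betti) {A : ℝ} (hA : 1 ≤ A) :
    ((∃ Λ : ℂ → ℂ, V.Simple r A Λ) ↔ ∃ S : Set ℝ, Window S ∧ ∃ (E : ℝ → ℂ → ℂ) (d : ℝ → ℕ),
      Describes (V.W r A) S E d ∧ V.HalfLine r A S E) ∧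
    ∀ S : Set ℝ, Window S →
      (∃ (E : ℝ → ℂ → ℂ) (d : ℝ → ℕ), Describes (V.W r A) S E d) ∧
      (∀ (E E' : ℝ → ℂ → ℂ) (d d' : ℝ → ℕ), Describes (V.W r A) S E d → Describes (V.W r A) S E' d' →
        ∀ a : ℝ, 0 < a → ∃ c : ℂ, c ≠ 0 ∧ ∀ z, E' a z = c * E a z) ∧
      (∀ (E : ℝ → ℂ → ℂ) (d : ℝ → ℕ), Describes (V.W r A) S E d →
        ((∃ Λ : ℂ → ℂ, V.Simple r A Λ ∧ ∀ t : ℝ, t ∈ S → Λ (((i : ℂ) + 1) / 2 + I * t) ≠ 0) ↔
          V.HalfLine r A S E)) := by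
  obtain ⟨a', α, κ, h⟩ := data V hr hA
  obtain ⟨hstr, him⟩ := cond h
  have hcr := cE_real h
  have hW : ∀ t : ℝ, 0 < t → ∀ f, Run7.h336.CB.S.InDom t f → V.W r A t f = WF V.betti r A a' (cE α) t f :=
    fun t _ f _ => W_eq hA h t f
  have hex : ∀ S : Set ℝ, Window S → ∃ (E : ℝ → ℂ → ℂ) (d : ℝ → ℕ), Describes (V.W r A) S E d :=
    fun S hS => describes_WF V.betti_pos hA hstr him hcr hW hS
  have hiff : ∀ S : Set ℝ, Window S → ∀ (E : ℝ → ℂ → ℂ) (d : ℝ → ℕ), Describes (V.W r A) S E d →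
        ((∃ Λ : ℂ → ℂ, V.Simple r A Λ ∧ ∀ t : ℝ, t ∈ S → Λ (((i : ℂ) + 1) / 2 + I * t) ≠ 0) ↔
          V.HalfLine r A S E) := by
    intro S hS E d hE
    rw [halfLine_iff h]
    constructor
    · rintro ⟨Λ, hΛ, hw⟩
      refine conv_of_good hS hE hstr (good_of h hΛ hw) hW fun y hy => ?_
      have hre : 7 / 4 < (1 / 2 + (y : ℂ)).re := by
        rw [Complex.add_re, Complex.ofReal_re]
        norm_num
        linarith
      have h1 := (h.hw Λ hΛ.toContinued).eq' hre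
      have h2 := E_eq h.bd (s := 1 / 2 + (y : ℂ)) hre.le
      show PP V.betti r A a' (bR (cE α)) (1 / 2 + y) = _
      rw [h1, h2]
      unfold PP H353.E.gaf
      simp only [sub_neg_eq_add]
      ring
    · intro hc
      obtain ⟨X, hX, -⟩ := good_of_conv V.betti_pos hr hA hstr (bR_one _) (cE_le h.bd) (bR_conv _) hS hE hW
        (PP_diff hA hstr (bR_one _) (bR_conv _) (cE_le h.bd)) (fun s _ => rfl)
        (PP_growth hA hstr him (bR_one _) (bR_conv _) (cE_le h.bd)) hc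
      exact of_good hA h hX
  refine ⟨⟨?_, ?_⟩, fun S hS => ⟨hex S hS, fun E E' d d' h1 h2 a ha => gen_unique h1 h2 ha, hiff S hS⟩⟩
  · rintro ⟨Λ, hΛ⟩
    have hd : Differentiable ℂ fun z => Λ (((i : ℂ) + 1) / 2 + I * z) := hΛ.entire.comp (by fun_prop)
    obtain ⟨S, hS, hno⟩ := exists_window hd ⟨-(2 * I), cont_ne h hΛ.toContinued⟩
    obtain ⟨E, d, hE⟩ := hex S hS
    exact ⟨S, hS, E, d, hE, (hiff S hS E d hE).1 ⟨Λ, hΛ, hno⟩⟩
  · rintro ⟨S, hS, E, d, hE, hc⟩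
    obtain ⟨Λ, hΛ, -⟩ := (hiff S hS E d hE).2 hc
    exact ⟨Λ, hΛ⟩

end Pool.Agent.Results.MP_7193be_nt.ContinuationCriterion
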