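import Pool.Agent.Run7.h336.CB.B22
import Pool.Agent.Run7.h833.GW.Coh

/-!
# Hasse-Weil L-functions: entire functions with all zeros on the critical line, built from the numbers of
# points modulo finitely many primes, which converge to the L-function if and only if part (d) holds

Let `X` be projective and smooth over `ℤ[1/N]`, `i` a degree of cohomology, and suppose that parts (a), (b) of
the problem hold for `(X, i)`.  Let `Λ` be the completed L-function, multiplied by
`((s - i/2) (s - i/2 - 1))^r` if there are poles of order `r` at `s = i/2`, `i/2 + 1`; let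
`Xi(z) = Λ((i+1)/2 + i z)`, so that part (d) says that all zeros of `Xi` are real.

For `a > 0` let `W a` be Weil's quadratic form for `(X, i)` on the functions `f` supported in `[-a, a]`,

`W a f = 2 r Re(F(-i/2) conj F(i/2)) + (1/2π) ∫ (log A + 2 Re (Γ_i'/Γ_i)((i+1)/2 + i t)) |F(t)|² dt`
`   - 2 Re ∑_{n = p^k ≤ e^(2 a)} log p · tr(Frob_p^k) n^(-(i+1)/2) ∫ f(x + log n) conj f(x) dx`,

`F(z) = ∫ f(x) e^(i z x) dx`: it contains the gamma factor, the conductor and the local polynomials at the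
primes `p ≤ e^(2 a)`, and no zero.  We minimise it relative to the mass `∫_S |F(t)|² dt` on a window `S`
(compact, `-S = S`, with interior points) without zeros of `Xi`; there are such windows.

RESULT (`Full`, modules `Pool.Agent.Run7.h336.CB.SFull` and `SDef`): for every `a > 0` the Fourier transforms of the
minimisers are the multiples `p E_a` of one entire function `E_a` by the polynomials `p` of degree less than
`d_a`.  `E_a` is real on the real line, even or odd, and ALL ITS ZEROS ARE REAL AND SIMPLE.  The lowest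
quotient `low a` is at most `exp (-c exp (2 a / m))`, `c < 2 π m A^(-1/m)`, `m = b_i`, for large `a`, and
* (d) holds for `(X, i)` if and only if `low a ≥ 0` for all `a`, if and only if `low a → 0`, if and only if
  `E_a(z) / E_a(i)` converges locally uniformly to a function that vanishes at the zeros of `Xi`; if (d)
  fails then `low a ≤ -exp (c exp (2 a / m) / a)` for some `c > 0` and all large `a`;
* (d) holds and all zeros are simple if and only if `E_a(z) / E_a(i) → Xi(z) / Xi(i)` locally uniformly;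
* if (d) holds then the limit exists and has simple zeros exactly at the zeros of `Xi`, and in every disc the
  zeros of `E_a` correspond one to one to the distinct zeros of `Xi`, up to `exp (-c exp (2 a / m))`,
  `c < π m A^(-1/m)`; if moreover all zeros are simple then `low a > 0` and the minimiser is unique up to a
  factor for large `a`.
Zeros at the centre, of any order, and both signs of the functional equation are allowed.
-/

set_option autoImplicit false
set_option maxHeartbeats 2000000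

namespace Pool.Agent.Results.MP_7193be_nt.GroundStatesConverge

open Complex Polynomial MeasureTheory Filter Topology
open scoped ComplexConjugate
open Pool.Agent.Run7.h336.CB.S (F Window Full)

/-- The Betti number `b_i = 2 ∑_{p < q, p + q = i} h^{p,q} + h^{m,+} + h^{m,-}` (the last two for
`i = 2m`), where `hodge p = h^{p, i-p}`. -/
def bettiOf (i : ℕ) (hodge : ℕ → ℕ) (plus minus : ℕ) : ℕ :=
  2 * ∑ p ∈ Finset.range ((i + 1) / 2), hodge p + (if Even i then plus + minus else 0)

/-- What enters of the cohomology `H^i` of a projective smooth scheme `X` over `ℤ[1/N]` in the Hasse-Weil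
L-function `L(i; X, s)` and its gamma factor. -/
structure Cohomology (i : ℕ) where
  /-- the integer `N`: good reduction for `p ∤ N` -/
  N : ℕ
  /-- the Hodge numbers `hodge p = h^{p, i - p}` for `2 p < i` -/
  hodge : ℕ → ℕ
  /-- `h^{m,+}` for `i = 2m` -/
  plus : ℕ
  /-- `h^{m,-}` for `i = 2m` -/
  minus : ℕ
  /-- `P_i(X(p), T)` for `p ∤ N`, and `det(1 - Frob_p T | H^i(X)^{I_p})` for `p ∣ N` -/
  P : ℕ → ℤ[X]
  N_pos : 0 < N
  betti_pos : 0 < bettiOf i hodge plus minus
  const : ∀ p : ℕ, p.Prime → (P p).coeff 0 = 1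
  degree_good : ∀ p : ℕ, p.Prime → ¬ p ∣ N → (P p).natDegree = bettiOf i hodge plus minus
  degree_bad : ∀ p : ℕ, p.Prime → p ∣ N → (P p).natDegree ≤ bettiOf i hodge plus minus
  roots_good : ∀ p : ℕ, p.Prime → ¬ p ∣ N → ∀ z : ℂ, aeval z (P p) = 0 →
    ‖z‖ = (p : ℝ) ^ (-((i : ℝ) / 2))
  roots_bad : ∀ p : ℕ, p.Prime → p ∣ N → ∀ z : ℂ, aeval z (P p) = 0 →
    (p : ℝ) ^ (-(((i : ℝ) + 1) / 2)) ≤ ‖z‖

namespace Cohomology

variable {i : ℕ} (V : Cohomology i)

/-- the Betti number `b_i` -/
def betti : ℕ := bettiOf i V.hodge V.plus V.minus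

/-- the L-function (with the factors at the primes dividing `N`) in the half-plane of convergence -/
noncomputable def L (s : ℂ) : ℂ :=
  ∏' p : Nat.Primes, (aeval (((p : ℕ) : ℂ) ^ (-s)) (V.P p))⁻¹

/-- the gamma factor `Γ_i(s) = ∏_{p<q} Γ_ℂ(s-p)^{h^{p,q}} Γ_ℝ(s-m)^{h^{m,+}} Γ_ℝ(s-m+1)^{h^{m,-}}`, the last
two factors for `i = 2m` only -/
noncomputable def gammaFactor (s : ℂ) : ℂ :=
  (∏ p ∈ Finset.range ((i + 1) / 2), Gammaℂ (s - p) ^ V.hodge p) *
    (if Even i then Gammaℝ (s - (i : ℂ) / 2) ^ V.plus * Gammaℝ (s - (i : ℂ) / 2 + 1) ^ V.minus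
      else 1)

/-- The trace of `Frob_p^k` at `n = p^k`: the sum of `z^(-k)` over the complex roots `z` of `P_p`, with
multiplicities; zero if `n` is not a power of a prime. -/
noncomputable def trace (n : ℕ) : ℂ :=
  if IsPrimePow n then (((V.P n.minFac).map (algebraMap ℤ ℂ)).roots.map
    fun z => (z ^ (n.factorization n.minFac))⁻¹).sum else 0

/-- `Λ(s) = ((s - i/2) (s - i/2 - 1))^r A^(s/2) Γ_i(s) L(i; X, s)`, the completed L-function without its poles,
and it has the properties (a), (b): it is entire, of finite order, and `Λ(s) = ± Λ(i + 1 - s)`. -/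
structure Continued (r : ℕ) (A : ℝ) (Λ : ℂ → ℂ) : Prop where
  le_betti : r ≤ V.betti
  one_le : 1 ≤ A
  entire : Differentiable ℂ Λ
  order : ∃ c ρ : ℝ, ∀ s : ℂ, ‖Λ s‖ ≤ Real.exp (c * (1 + ‖s‖) ^ ρ)
  fe : ∃ ε : ℝ, (ε = 1 ∨ ε = -1) ∧ ∀ s : ℂ, Λ s = ε * Λ (i + 1 - s)
  eq : ∃ σ : ℝ, ∀ s : ℂ, σ ≤ s.re → Λ s = ((s - (i : ℂ) / 2) * (s - (i : ℂ) / 2 - 1)) ^ r *
    ((A : ℂ) ^ (s / 2) * V.gammaFactor s * V.L s)

/-- Weil's quadratic form of `L(i; X, s)` for functions supported in `[-a, a]`: the poles, the gamma factor and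
the conductor `A`, and the powers `n ≤ exp (2 a)` of primes. -/
noncomputable def W (r : ℕ) (A : ℝ) (a : ℝ) (f : ℝ → ℂ) : ℝ :=
  2 * r * (F f (-(I / 2)) * conj (F f (I / 2))).re +
    1 / (2 * Real.pi) * (∫ t : ℝ, (Real.log A + 2 * (logDeriv V.gammaFactor (((i : ℂ) + 1) / 2 + I * t)).re) *
      ‖F f t‖ ^ 2) -
    2 * (∑ n ∈ Finset.Icc 1 ⌊Real.exp (2 * a)⌋₊, ArithmeticFunction.vonMangoldt n * V.trace n /
      (((n : ℝ) ^ (((i : ℝ) + 1) / 2) : ℝ) : ℂ) * ∫ x : ℝ, f (x + Real.log n) * conj (f x)).re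

end Cohomology

open Y23.G Y23.G.CB Run7.h833.GW Pool.Agent.TH839.UH Pool.Agent.TH839.NA

variable {i : ℕ} {V : Cohomology i} {r : ℕ} {A : ℝ} {Λ : ℂ → ℂ}

lemma data (h : V.Continued r A Λ) : ∃ (a' : Fin V.betti → ℂ) (α : Nat.Primes → Fin V.betti → ℂ) (κ : ℝ), 0 < κ ∧
      EP.HW V.betti r A a' α (fun z => (κ : ℂ) * Λ (z + (((i : ℝ) / 2 : ℝ) : ℂ))) ∧
      (∀ j, 0 ≤ (a' j).re) ∧
      (∀ z : ℂ, (∏ j, Gammaℝ (z + a' j)) = V.gammaFactor (z + (i : ℂ) / 2)) ∧
      (∀ (p : Nat.Primes) (k : ℕ), ∑ j, α p j ^ (k + 1) = (((p : ℕ) : ℂ) ^ (-((i : ℂ) / 2))) ^ (k + 1) *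
        (((V.P p).map (algebraMap ℤ ℂ)).roots.map fun z => (z ^ (k + 1))⁻¹).sum) := by
  refine coh_ep (i := i) (h := V.hodge) (a := V.plus) (b := V.minus) (P := V.P) rfl V.betti_pos V.const
    (fun p hp => ?_) (fun p hp z hz => ?_) h.one_le h.le_betti h.entire h.order h.fe h.eq
  · by_cases hpN : p ∣ V.N
    · exact V.degree_bad p hp hpN
    · exact (V.degree_good p hp hpN).le
  · by_cases hpN : p ∣ V.N
    · exact V.roots_bad p hp hpN z hz
    · rw [V.roots_good p hp hpN z hz]
      exact Real.rpow_le_rpow_of_exponent_le (by exact_mod_cast hp.one_le) (by linarith)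

/-- the archimedean density -/
lemma arch {m : ℕ} {A : ℝ} (hA : 1 ≤ A) {a' : Fin m → ℂ} (ha : ∀ j, 0 ≤ (a' j).re) {γ : ℂ → ℂ} {c : ℂ}
    (hγ : ∀ z : ℂ, (∏ j, Gammaℝ (z + a' j)) = γ (z + c)) (t : ℝ) :
    2 * (H353.E.gaD A (fun j => -a' j) (⟨1 / 2, t⟩ : ℂ)).re =
      Real.log A + 2 * (logDeriv γ (1 / 2 + c + I * t)).re := by
  set s : ℂ := ⟨1 / 2, t⟩ with hs
  have hre : ∀ j, 0 < (s - (fun j => -a' j) j).re := by
    intro j
    have := ha j
    simp only [sub_neg_eq_add, Complex.add_re]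
    show 0 < (1 / 2 : ℝ) + (a' j).re
    linarith
  have h1 := H353.E.gaf_der (N := 1) one_pos hre
  have e1 : ∀ z : ℂ, H353.E.gaf 1 (fun j => -a' j) z = γ (z + c) := by
    intro z
    rw [← hγ]
    unfold H353.E.gaf
    simp only [sub_neg_eq_add, Complex.ofReal_one, Complex.one_cpow, one_mul]
  have e2 : H353.E.gaf 1 (fun j => -a' j) = fun z => γ (z + c) := funext e1
  rw [e2] at h1
  have h2 : HasDerivAt γ (γ (s + c) * H353.E.gaD 1 (fun j => -a' j) s) (s + c) := by
    have h3 : HasDerivAt (fun w : ℂ => w - c) 1 (s + c) := (hasDerivAt_id _).sub_const c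
    have h4 : HasDerivAt (fun z => γ (z + c)) (γ (s + c) * H353.E.gaD 1 (fun j => -a' j) s) ((s + c) - c) := by
      rw [add_sub_cancel_right]
      exact h1
    have h5 := HasDerivAt.comp (s + c) h4 h3
    rw [mul_one] at h5
    refine h5.congr_of_eventuallyEq (Eventually.of_forall fun w => ?_)
    simp
  have hne : γ (s + c) ≠ 0 := by
    rw [← hγ]
    refine Finset.prod_ne_zero_iff.2 fun j _ => Complex.Gammaℝ_ne_zero_of_re_pos ?_
    have := hre j
    simpa using this
  have h3 : logDeriv γ (s + c) = H353.E.gaD 1 (fun j => -a' j) s := by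
    rw [logDeriv_apply, h2.deriv, mul_div_cancel_left₀ _ hne]
  have e3 : (1 / 2 + c + I * t : ℂ) = s + c := by
    rw [hs]
    have : (⟨1 / 2, t⟩ : ℂ) = 1 / 2 + I * t := by
      apply Complex.ext <;> simp
    rw [this]
    ring
  rw [e3, h3]
  unfold H353.E.gaD
  simp only [Real.log_one, zero_div, Complex.ofReal_zero, zero_add, Complex.add_re, Complex.ofReal_re]
  ring

/-- windows exist -/
lemma exists_window {X : ℂ → ℂ} (hX : Differentiable ℂ X) (hne : ∃ z, X z ≠ 0) :
    ∃ S : Set ℝ, Window S ∧ ∀ t ∈ S, X t ≠ 0 := by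
  obtain ⟨z1, hz1⟩ := hne
  have hGa : AnalyticOnNhd ℂ X Set.univ := fun z _ => hX.analyticAt z
  have hiso : ∀ᶠ z in 𝓝[≠] (0 : ℂ), X z ≠ 0 := by
    rcases (hX.analyticAt 0).eventually_eq_zero_or_eventually_ne_zero with h | h
    · exact absurd (hGa.eqOn_zero_of_preconnected_of_eventuallyEq_zero
        isPreconnected_univ (Set.mem_univ 0) h (Set.mem_univ z1)) hz1
    · exact h
  rw [eventually_nhdsWithin_iff, Metric.eventually_nhds_iff] at hiso
  obtain ⟨ε, hε, hε2⟩ := hiso
  refine ⟨Set.Icc (-(ε / 2)) (-(ε / 3)) ∪ Set.Icc (ε / 3) (ε / 2), ⟨isCompact_Icc.union isCompact_Icc, fun t ht => ?_, ?_⟩,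
    fun t ht => ?_⟩
  · rcases ht with ht | ht
    · exact Or.inr ⟨by linarith [ht.2], by linarith [ht.1]⟩
    · exact Or.inl ⟨by linarith [ht.2], by linarith [ht.1]⟩
  · refine ⟨5 * ε / 12, interior_mono Set.subset_union_right ?_⟩
    rw [interior_Icc]
    constructor <;> linarith
  · have h1 : |t| < ε ∧ t ≠ 0 := by
      rcases ht with ht | ht
      · have h2 := ht.1
        have h3 := ht.2
        refine ⟨by rw [abs_lt]; constructor <;> linarith, by intro h; rw [h] at h3; linarith⟩
      · have h2 := ht.1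
        have h3 := ht.2
        refine ⟨by rw [abs_lt]; constructor <;> linarith, by intro h; rw [h] at h2; linarith⟩
    refine hε2 ?_ ?_
    · rw [dist_zero_right, Complex.norm_real, Real.norm_eq_abs]
      exact h1.1
    · show (t : ℂ) ≠ 0
      exact_mod_cast h1.2

/-- **Main theorem.** Let `V` be the data of the cohomology in degree `i` and let `Λ` be the completed L-function,
without its poles of order `r`, of conductor `A`.  There is a window `S` without zeros of
`Xi(z) = Λ((i+1)/2 + i z)`, and for every window `S` without zeros of `Xi` the statement holds for `Xi`, of degree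
`b_i` and conductor `A`, and Weil's forms `V.W r A`. -/
theorem result {i : ℕ} (V : Cohomology i) {r : ℕ} {A : ℝ} {Λ : ℂ → ℂ} (h : V.Continued r A Λ) :
    (∃ S : Set ℝ, Window S ∧ ∀ t : ℝ, t ∈ S → Λ (((i : ℂ) + 1) / 2 + I * t) ≠ 0) ∧
    ∀ S : Set ℝ, Window S → (∀ t : ℝ, t ∈ S → Λ (((i : ℂ) + 1) / 2 + I * t) ≠ 0) →
      Full (fun z => Λ (((i : ℂ) + 1) / 2 + I * z)) V.betti A (V.W r A) S := by
  obtain ⟨a', α, κ, hκ, hW, ha, hγ, htr⟩ := data h
  have hraw := raw_of_hw hW
  let L : LFun := ⟨V.betti, r, A, a', bR (cE α), cE α, _, hraw, fun j => by have := ha j; linarith⟩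
  have hhalf : (((i : ℝ) / 2 : ℝ) : ℂ) = (i : ℂ) / 2 := by push_cast; rfl
  have hX : ∀ z, L.X (1 / 2 + I * z) = (κ : ℂ) * Λ (((i : ℂ) + 1) / 2 + I * z) := by
    intro z
    show (κ : ℂ) * Λ (1 / 2 + I * z + (((i : ℝ) / 2 : ℝ) : ℂ)) = _
    rw [hhalf]
    congr 2
    ring
  have hκc : (κ : ℂ) ≠ 0 := by exact_mod_cast hκ.ne'
  have hd : Differentiable ℂ fun z => Λ (((i : ℂ) + 1) / 2 + I * z) := h.entire.comp (by fun_prop)
  refine ⟨exists_window hd ⟨-(2 * I), fun h0 => ?_⟩, fun S hS hno => ?_⟩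
  · have h1 : L.X (1 / 2 + I * -(2 * I)) ≠ 0 := by
      refine X_ne (L := L) ?_
      have : (1 / 2 + I * -(2 * I) : ℂ) = ((5 / 2 : ℝ) : ℂ) := by
        have := Complex.I_mul_I
        push_cast
        linear_combination (-2) * this
      rw [this, Complex.ofReal_re]
      norm_num
    rw [hX] at h1
    exact h1 (by rw [h0, mul_zero])
  · refine Run7.h336.CB.S.full L (fun z => Λ (((i : ℂ) + 1) / 2 + I * z)) hκc hX ?_ (V.W r A) (fun a ha' f hf => ?_)
      hS hno
    · obtain ⟨ε, hε, hfe⟩ := h.fe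
      have h1 : ∀ z : ℂ, Λ (((i : ℂ) + 1) / 2 + I * -z) = ε * Λ (((i : ℂ) + 1) / 2 + I * z) := by
        intro z
        rw [hfe]
        congr 2
        ring
      rcases hε with rfl | rfl
      · left
        intro z
        rw [h1]; simp
      · right
        intro z
        rw [h1]; simp
    · rw [weil (L := L) ha' ((Run7.h336.CB.S.inDom_iff a f).1 hf)]
      have e1 : F f (-(I / 2)) = Y23.TT f (1 / 2) := by
        rw [Run7.h336.CB.S.F_eq]
        congr 1
        linear_combination (-1 / 2 : ℂ) * Complex.I_mul_I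
      have e2 : F f (I / 2) = Y23.TT f (-(1 / 2)) := by
        rw [Run7.h336.CB.S.F_eq]
        congr 1
        linear_combination (1 / 2 : ℂ) * Complex.I_mul_I
      have e3 : ∀ t : ℝ, Real.log A + 2 * (logDeriv V.gammaFactor (((i : ℂ) + 1) / 2 + I * t)).re =
          (GD (L := L)) t := by
        intro t
        have h1 := arch h.one_le ha hγ t
        rw [show (1 / 2 + (i : ℂ) / 2 + I * t : ℂ) = ((i : ℂ) + 1) / 2 + I * t by ring] at h1
        rw [← h1]
        rfl
      have e4 : ∀ n ∈ Finset.Icc 1 ⌊Real.exp (2 * a)⌋₊,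
          ((ArithmeticFunction.vonMangoldt n : ℝ) : ℂ) * V.trace n / (((n : ℝ) ^ (((i : ℝ) + 1) / 2) : ℝ) : ℂ) *
            (∫ x : ℝ, f (x + Real.log n) * conj (f x)) =
          aL (L := L) n * ∫ x : ℝ, f (x + Real.log n) * conj (f x) := by
        intro n hn
        have hn1 := (Finset.mem_Icc.1 hn).1
        have hn0 : (0 : ℝ) < n := by exact_mod_cast hn1
        congr 1
        have e5 : aL (L := L) n = ((ArithmeticFunction.vonMangoldt n : ℝ) : ℂ) *
            (cE α n * TH839.NA.pw (-(1 / 2)) n) := rfl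
        rw [e5]
        by_cases hpp : IsPrimePow n
        · obtain ⟨p, k, hp, hk, rfl⟩ := (isPrimePow_nat_iff n).1 hpp
          obtain ⟨j, rfl⟩ : ∃ j, k = j + 1 := ⟨k - 1, by omega⟩
          have h1 : cE α (p ^ (j + 1)) = ∑ l, α ⟨p, hp⟩ l ^ (j + 1) := cE_pow α ⟨p, hp⟩ j
          have h2 := htr ⟨p, hp⟩ j
          have h3 : (p ^ (j + 1)).minFac = p := hp.pow_minFac (Nat.succ_ne_zero j)
          have h4 : (p ^ (j + 1)).factorization p = j + 1 := by
            rw [hp.factorization_pow, Finsupp.single_eq_same]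
          have h5 : V.trace (p ^ (j + 1)) = (((V.P p).map (algebraMap ℤ ℂ)).roots.map
              fun z => (z ^ (j + 1))⁻¹).sum := by
            unfold Cohomology.trace
            rw [if_pos hpp, h3, h4]
          have hp0 : (0 : ℝ) < p := by exact_mod_cast hp.pos
          have h6 : (((p : ℂ)) ^ (-((i : ℂ) / 2))) ^ (j + 1) =
              ((((p ^ (j + 1) : ℕ) : ℝ) ^ (-((i : ℝ) / 2)) : ℝ) : ℂ) := by
            have e6 : ((p : ℂ)) ^ (-((i : ℂ) / 2)) = (((p : ℝ) ^ (-((i : ℝ) / 2)) : ℝ) : ℂ) := by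
              rw [Complex.ofReal_cpow hp0.le]
              push_cast
              rfl
            rw [e6, ← Complex.ofReal_pow]
            congr 1
            push_cast
            rw [← Real.rpow_natCast, ← Real.rpow_natCast, ← Real.rpow_mul hp0.le, ← Real.rpow_mul hp0.le, mul_comm]
          have h7 : (((p ^ (j + 1) : ℕ) : ℝ) ^ (-((i : ℝ) / 2))) * (((p ^ (j + 1) : ℕ) : ℝ) ^ (-(1 / 2 : ℝ))) =
              ((((p ^ (j + 1) : ℕ) : ℝ) ^ (((i : ℝ) + 1) / 2)))⁻¹ := by
            rw [← Real.rpow_add hn0, ← Real.rpow_neg hn0.le]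
            congr 1
            ring
          rw [h1, h2, h5]
          show _ = ((ArithmeticFunction.vonMangoldt (p ^ (j + 1)) : ℝ) : ℂ) * ((((p : ℂ)) ^ (-((i : ℂ) / 2))) ^ (j + 1) *
            (((V.P p).map (algebraMap ℤ ℂ)).roots.map fun z => (z ^ (j + 1))⁻¹).sum * TH839.NA.pw (-(1 / 2)) (p ^ (j + 1)))
          rw [h6]
          unfold TH839.NA.pw
          rw [div_eq_mul_inv, ← Complex.ofReal_inv, ← h7]
          push_cast
          ring
        · have h1 : cE α n = 0 := dif_neg hpp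
          have h2 : V.trace n = 0 := if_neg hpp
          rw [h1, h2]
          simp
      unfold Cohomology.W
      rw [Finset.sum_congr rfl e4]
      simp only [e1, e2, Run7.h336.CB.S.F_real, e3]
      rfl

end Pool.Agent.Results.MP_7193be_nt.GroundStatesConverge
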