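import Pool.Agent.Run7.h456.Win.HW
import Pool.Agent.Results.MP_7193be_nt.ZeroDensity

/-!
# One short window of primes decides the Riemann hypothesis for a Hasse-Weil L-function

Let `X` be smooth and projective over `ℤ[1/N]`, `i ≥ 0`, and suppose that `H^i(X)` is (up to semisimplification) a sum of
parts `V(f) (-r)`, where `f` is a newform of any weight `k ≥ 1`, any level and any nebentypus, and `k + 2r = i + 1`.
Examples: `H^1` of the modular curves `X_0(M)`, `X_1(M)`, of all elliptic curves over `ℚ`, of all products of abelian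
varieties over `ℚ` of `GL_2`-type and of their Weil restrictions from abelian number fields; `H^3` of rigid Calabi-Yau
threefolds over `ℚ`; any Tate twists and any multiplicities are allowed. Let `Λ = Λ_A(i; X, s)` and
`S(x, y) = ∑ Tr (Frob_p | H^i(X))`, the sum over the primes `p` in `(x, y]`. We prove without any hypothesis:

* (large values in every short window) if `Λ(ρ) = 0` and `η = |Re ρ - (i + 1)/2| > 0`, then for all
  `μ < (i + 1)/2 + η`, `τ < η / (1 - η)` and ALL large `X` there are `x ≤ y` in `[X, X (1 + (log X)^(-τ))]` with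
  `|S(x, y)| > X^μ`;
* (criterion) for `0 ≤ θ ≤ 1/2` all zeros of `Λ` are at distance at most `θ` from the line `Re s = (i + 1)/2` if and
  only if for every `ε > 0` there are ARBITRARILY LARGE `X` such that `|S(x, y)| ≤ X^((i + 1)/2 + θ + ε)` for all
  `x ≤ y` in `[X, X (1 + (log X)^(-θ/(1 - θ) - ε))]`; and in this case one has, for every `ε > 0` and all large `X`,
  this bound for all `x ≤ y` in `[X, 2 X]`.

For `θ = 0` this is the generalized Riemann hypothesis (d) for `Λ`: it is decided by one short window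
`[X, X (1 + (log X)^(-ε))]` for each `ε > 0`, which may be arbitrarily far away and may depend on `ε`.

For elliptic curves (and their twists) see `Pool.Agent.Results.MP_553913_nt.OneShortWindow`, with the same proof
(modules `Pool.Agent.Run7.h456.Win`): the sums of the traces against narrow Gaussians are power sums of the zeros with
`Re ρ ≥ (i + 1)/2 + θ + 2 g`, `|Im ρ| ≤ (log X)^{1 + τ}`; their number is less than `(log X)^{1 - ε}` by the zero density
theorem with the exponent `1 - c δ`, `c < 1` arbitrary (starting modules `Pool.Agent.Y24.GL`, `Pool.Agent.R838.NB`), and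
an interpolation argument gives a lower bound for a power sum of so few terms. New in comparison with that file are the
products, all weights and all nebentypus characters.
-/

set_option autoImplicit false

open UpperHalfPlane MatrixGroups CongruenceSubgroup

namespace Pool.Agent.Results.MP_7193be_nt.OneShortWindow

/-! ### The constituents of the cohomology -/

/-- The `n`-th Fourier coefficient `a(n)` of `f(τ) = ∑ a(n) e^(2πinτ)`. -/
noncomputable def a {M : ℕ} {k : ℤ} (f : CuspForm (Gamma1 M : Subgroup (GL (Fin 2) ℝ)) k) (n : ℕ) :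
    ℂ := (qExpansion 1 f).coeff n

/-- `f` is a newform of weight `k`, level `M`, nebentypus `ψ`; the properties that are used:
`f(γτ) = ψ(d) (cτ+d)^k f(τ)` for `γ = (a b; c d)` in `Γ₀(M)`, `a(1) = 1`, the Hecke relations
`a(mn) = a(m) a(n)` for coprime `m`, `n` and `a(p^(j+2)) = a(p) a(p^(j+1)) - ψ(p) p^(k-1) a(p^j)`,
`conj a(n) = conj ψ(n) a(n)` for `n` prime to `M`, and the Fricke involution maps `f` to a multiple
of the form with the conjugate coefficients,
`f(-1/(Mτ)) = η (√M τ/i)^k conj (f(-conj τ))` with `|η| = 1`. -/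
structure IsNewform (M : ℕ) (k : ℤ) (ψ : DirichletCharacter ℂ M)
    (f : CuspForm (Gamma1 M : Subgroup (GL (Fin 2) ℝ)) k) : Prop where
  neb : ∀ γ : SL(2, ℤ), γ ∈ Gamma0 M → ∀ τ : ℍ,
    f (γ • τ) = ψ ((γ 1 1 : ℤ) : ZMod M) * denom γ τ ^ k * f τ
  one : a f 1 = 1
  mul : ∀ m n : ℕ, Nat.Coprime m n → a f (m * n) = a f m * a f n
  pow : ∀ p j : ℕ, p.Prime → a f (p ^ (j + 2)) = a f p * a f (p ^ (j + 1)) -
    ψ (p : ZMod M) * (p : ℂ) ^ (k - 1) * a f (p ^ j)
  conj : ∀ n : ℕ, Nat.Coprime n M → (starRingEnd ℂ) (a f n) =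
    (starRingEnd ℂ) (ψ (n : ZMod M)) * a f n
  fricke : ∃ η : ℂ, ‖η‖ = 1 ∧ ∀ τ τ' τc : ℍ, (τ' : ℂ) * ((M : ℂ) * (τ : ℂ)) = -1 →
    (τc : ℂ) = -(starRingEnd ℂ) (τ : ℂ) →
    f τ' = η * (((Real.sqrt M : ℝ) : ℂ) * (τ : ℂ) / Complex.I) ^ k * (starRingEnd ℂ) (f τc)

/-- A part `V(f) (-r)` of a cohomology group of degree `i`: a newform `f` of level `M`, weight `k` and nebentypus `ψ`,
and a Tate twist `(-r)` with `k + 2r = i + 1`. The bounds `good` (Deligne; Deligne and Serre for `k = 1`) and `bad` hold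
for every newform. -/
structure Part (i : ℕ) where
  M : ℕ
  k : ℕ
  r : ℕ
  ψ : DirichletCharacter ℂ M
  f : CuspForm (Gamma1 M : Subgroup (GL (Fin 2) ℝ)) (k : ℤ)
  M_pos : 1 ≤ M
  k_pos : 1 ≤ k
  newform : IsNewform M k ψ f
  weight : k + 2 * r = i + 1
  good : ∀ p : ℕ, p.Prime → ¬ p ∣ M → ‖a f p‖ ≤ 2 * (p : ℝ) ^ (((k : ℝ) - 1) / 2)
  bad : ∀ p : ℕ, p.Prime → p ∣ M → ‖a f p‖ ≤ (p : ℝ) ^ (((k : ℝ) - 1) / 2)

/-- The polynomial `P_i(X(p), T)` at `T = p^(-s)` for the sum `V` of the parts `π_0, …, π_n`: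
`∏_j (1 - a_j(p) p^(r_j - s) + ψ_j(p) p^(i - 2s))`, where `ψ_j(p) = 0` for `p ∣ M_j` (for the bad `p`
this is the polynomial of the Frobenius on the inertia invariants, so that `P(p, s)⁻¹ = L_p(i; X, s)`). -/
noncomputable def P {i n : ℕ} (π : Fin (n + 1) → Part i) (p : ℕ) (s : ℂ) : ℂ :=
  ∏ j, (1 - a (π j).f p * (p : ℂ) ^ (((π j).r : ℂ) - s) +
    (π j).ψ (p : ZMod (π j).M) * (p : ℂ) ^ ((i : ℂ) - 2 * s))

/-- The factor `∏_j (√M_j / 2π)^s Γ(s - r_j)`, up to a constant `A^(s/2) ∏_j Γ_ℂ(s - r_j)` with the conductor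
`A = ∏_j M_j`. -/
noncomputable def gam {i n : ℕ} (π : Fin (n + 1) → Part i) (s : ℂ) : ℂ :=
  ∏ j, (((Real.sqrt (π j).M / (2 * Real.pi) : ℝ) : ℂ) ^ s * Complex.Gamma (s - (π j).r))

/-- `Λ` is (up to a constant) the completed Hasse-Weil L-function `Λ_A(i; X, s)` with
`H^i(X) = π_0 ⊕ … ⊕ π_n`: it is entire and for `Re s > i/2 + 1` it is the product of `gam(s)` and the Euler product
over all primes of `P(p, s)⁻¹`. -/
def IsCompleted {i n : ℕ} (π : Fin (n + 1) → Part i) (Λ : ℂ → ℂ) : Prop :=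
  Differentiable ℂ Λ ∧ ∀ s : ℂ, (i : ℝ) / 2 + 1 < s.re → ∃ L : ℂ,
    HasProd (fun p : Nat.Primes => (P π p s)⁻¹) L ∧ Λ s = gam π s * L

/-! ### Sums over primes -/

/-- The trace of the Frobenius at `p` on `V = π_0 ⊕ … ⊕ π_n`: `∑_j a_j(p) p^(r_j)`. -/
noncomputable def tr {i n : ℕ} (π : Fin (n + 1) → Part i) (p : ℕ) : ℂ :=
  ∑ j, a (π j).f p * (p : ℂ) ^ (π j).r

/-- The sum of the traces of the Frobenius over the primes `x < p ≤ y`. -/
noncomputable def S {i n : ℕ} (π : Fin (n + 1) → Part i) (x y : ℝ) : ℂ :=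
  ∑ p ∈ (Finset.Ioc ⌊x⌋₊ ⌊y⌋₊).filter Nat.Prime, tr π p

/-- `|S(x, y)| ≤ X^μ` for all `x ≤ y` in the window `[X, X (1 + (log X)^(-τ))]`. -/
def Small {i n : ℕ} (π : Fin (n + 1) → Part i) (μ τ X : ℝ) : Prop :=
  ∀ x y : ℝ, X ≤ x → x ≤ y → y ≤ X * (1 + (Real.log X) ^ (-τ)) → ‖S π x y‖ ≤ X ^ μ

open Pool.Agent.Run7.h456.Win

/-- the coefficients of `S` -/
noncomputable def sq {i n : ℕ} (π : Fin (n + 1) → Part i) (m : ℕ) : ℂ := if m.Prime then tr π m else 0

theorem small_iff {i n : ℕ} (π : Fin (n + 1) → Part i) (μ τ X : ℝ) :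
    Small π μ τ X ↔ Win1 0 (sq π) μ τ X := by
  unfold Small Win1 S sq
  simp only [Nat.cast_zero, zero_mul, sub_zero, Finset.sum_filter]

/-- the same part in the starting file -/
noncomputable def toZ {i : ℕ} (P : Part i) : Pool.Agent.Results.MP_7193be_nt.ZeroDensity.Part i where
  M := P.M
  k := P.k
  r := P.r
  ψ := P.ψ
  f := P.f
  M_pos := P.M_pos
  k_pos := P.k_pos
  newform := ⟨P.newform.neb, P.newform.one, P.newform.mul, P.newform.pow, P.newform.conj, P.newform.fricke⟩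
  weight := P.weight

theorem core {i n : ℕ} (π : Fin (n + 1) → Part i) :
    ∃ (F : ℂ → ℂ) (c : ℕ → ℂ), Dat 0 (∑ _j : Fin (n + 1), 2) c F ∧
      (∀ s : ℂ, (i : ℝ) / 2 + 1 < s.re → HasProd (fun p : Nat.Primes => (P π p s)⁻¹) (F (s - i / 2))) ∧
      ∀ m : ℕ, 0 < m → sq π m =
        (((m : ℝ) ^ ((i : ℝ) / 2) / Real.log m : ℝ) : ℂ) * ((if m.Prime then c m else 0) - ((0 : ℕ) : ℂ)) := by
  have hone : ∀ j : Fin (n + 1), ∃ (F : ℂ → ℂ) (c : ℕ → ℂ), Dat 0 2 c F ∧
      (∀ s : ℂ, (i : ℝ) / 2 + 1 < s.re → HasProd (fun p : Nat.Primes =>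
        (1 - a (π j).f p * ((p : ℕ) : ℂ) ^ (((π j).r : ℂ) - s) +
          (π j).ψ ((p : ℕ) : ZMod (π j).M) * ((p : ℕ) : ℂ) ^ ((i : ℂ) - 2 * s))⁻¹) (F (s - i / 2))) ∧
      ∀ p : ℕ, p.Prime → (((p : ℝ) ^ ((i : ℝ) / 2) / Real.log p : ℝ) : ℂ) * c p =
        a (π j).f p * (p : ℂ) ^ (π j).r := by
    intro j
    haveI : NeZero (π j).M := ⟨Nat.one_le_iff_ne_zero.1 (π j).M_pos⟩
    have hf := (π j).newform
    obtain ⟨η, hη, hfr⟩ := hf.fricke
    have hf' : W388.IsNewfC (π j).M (π j).k (π j).ψ (π j).f η :=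
      ⟨hf.neb, hf.one, hf.mul, hf.pow, hf.conj, hη, hfr⟩
    exact part_core (π j).k_pos hf' (π j).weight (π j).good (π j).bad
  choose F c h1 h2 h3 using hone
  have hD := Dat.prod (Finset.univ : Finset (Fin (n + 1))) ⟨0, Finset.mem_univ _⟩ (δ := fun _ => 0) (K := fun _ => 2)
    (c := c) (F := F) fun j _ => h1 j
  rw [Finset.sum_const_zero] at hD
  refine ⟨fun z => ∏ j, F j z, fun m => ∑ j, c j m, hD, fun s hs => ?_, fun m hm => ?_⟩
  · have h6 : HasProd (fun p : Nat.Primes => ∏ j, (1 - a (π j).f p * ((p : ℕ) : ℂ) ^ (((π j).r : ℂ) - s) +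
        (π j).ψ ((p : ℕ) : ZMod (π j).M) * ((p : ℕ) : ℂ) ^ ((i : ℂ) - 2 * s))⁻¹) (∏ j, F j (s - i / 2)) :=
      hasProd_prod fun j _ => h2 j s hs
    simpa only [P, Finset.prod_inv_distrib] using h6
  · unfold sq
    by_cases hp : m.Prime
    · rw [if_pos hp, if_pos hp, Nat.cast_zero, sub_zero, Finset.mul_sum]
      unfold tr
      exact Finset.sum_congr rfl fun j _ => (h3 j m hp).symm
    · rw [if_neg hp, if_neg hp]
      simp

/-- **Main theorem.** Let `Λ` be the completed Hasse-Weil L-function with the parts `π_0, …, π_n`. It exists, is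
unique and satisfies the functional equation. (1) A zero at distance `η > 0` from the line `Re s = (i + 1)/2` forces
values larger than `X^μ`, `μ < (i + 1)/2 + η`, of the sum of the traces of the Frobenius in EVERY far window
`[X, X (1 + (log X)^(-τ))]`, `τ < η/(1 - η)`. (2) The zeros are at distance at most `θ` from the line if and only if for
every `ε > 0` these sums are at most `X^((i + 1)/2 + θ + ε)` in arbitrarily far windows
`[X, X (1 + (log X)^(-θ/(1 - θ) - ε))]`, and if and only if for every `ε > 0` this holds in all far intervals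
`[X, 2 X]`. -/
theorem result {i n : ℕ} (π : Fin (n + 1) → Part i) :
    ∃ Λ : ℂ → ℂ, IsCompleted π Λ ∧ (∀ Λ' : ℂ → ℂ, IsCompleted π Λ' → Λ' = Λ) ∧
      (∃ W : ℂ, ‖W‖ = 1 ∧ ∀ s : ℂ, Λ (i + 1 - s) = W * (starRingEnd ℂ) (Λ ((starRingEnd ℂ) s))) ∧
      (∀ (ρ : ℂ) (η : ℝ), Λ ρ = 0 → |ρ.re - ((i : ℝ) + 1) / 2| = η → 0 < η → ∀ μ τ : ℝ,
        μ < ((i : ℝ) + 1) / 2 + η → τ < η / (1 - η) →
        ∃ X₀ : ℝ, ∀ X : ℝ, X₀ ≤ X → ∃ x y : ℝ, X ≤ x ∧ x ≤ y ∧ y ≤ X * (1 + (Real.log X) ^ (-τ)) ∧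
          X ^ μ < ‖S π x y‖) ∧
      (∀ θ : ℝ, 0 ≤ θ → θ ≤ 1 / 2 →
        ((∀ ρ : ℂ, Λ ρ = 0 → |ρ.re - ((i : ℝ) + 1) / 2| ≤ θ) ↔ ∀ ε : ℝ, 0 < ε → ∀ X₀ : ℝ, ∃ X : ℝ, X₀ ≤ X ∧
          Small π (((i : ℝ) + 1) / 2 + θ + ε) (θ / (1 - θ) + ε) X) ∧
        ((∀ ρ : ℂ, Λ ρ = 0 → |ρ.re - ((i : ℝ) + 1) / 2| ≤ θ) ↔ ∀ ε : ℝ, 0 < ε → ∃ X₀ : ℝ, ∀ X : ℝ, X₀ ≤ X →
          ∀ x y : ℝ, X ≤ x → x ≤ y → y ≤ 2 * X → ‖S π x y‖ ≤ X ^ (((i : ℝ) + 1) / 2 + θ + ε))) := by
  obtain ⟨Λ, v, hv, h1, h2, ⟨W, hW, hfe⟩, h4⟩ := Pool.Agent.Results.MP_7193be_nt.ZeroDensity.key fun j => toZ (π j)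
  have h1' : IsCompleted π Λ := h1
  obtain ⟨F, c, hD, hF, hsq⟩ := core π
  have hi0 : (0 : ℝ) ≤ i := Nat.cast_nonneg i
  have hrle : ∀ j, ((π j).r : ℝ) ≤ (i : ℝ) / 2 := by
    intro j
    have e1 : ((π j).k : ℝ) + 2 * (π j).r = i + 1 := by exact_mod_cast (π j).weight
    have e2 : (1 : ℝ) ≤ (π j).k := by exact_mod_cast (π j).k_pos
    linarith
  have hgne : ∀ s : ℂ, (i : ℝ) / 2 < s.re → gam π s ≠ 0 := by
    intro s hs
    unfold gam
    refine Finset.prod_ne_zero_iff.2 fun j _ => mul_ne_zero ?_ ?_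
    · have hM : 0 < Real.sqrt (π j).M / (2 * Real.pi) := by
        have e1 : (0 : ℝ) < (π j).M := by exact_mod_cast (π j).M_pos
        have e2 := Real.pi_pos
        have e3 := Real.sqrt_pos.2 e1
        positivity
      rw [Ne, Complex.cpow_eq_zero_iff, Complex.ofReal_eq_zero]
      exact fun h => hM.ne' h.1
    · refine Complex.Gamma_ne_zero_of_re_pos ?_
      rw [Complex.sub_re, Complex.natCast_re]
      linarith [hrle j]
  have hgd : ∀ s : ℂ, (i : ℝ) / 2 < s.re → DifferentiableAt ℂ (gam π) s := by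
    intro s hs
    unfold gam
    refine DifferentiableAt.fun_finsetProd fun j _ => ?_
    have hM : 0 < Real.sqrt (π j).M / (2 * Real.pi) := by
      have e1 : (0 : ℝ) < (π j).M := by exact_mod_cast (π j).M_pos
      have e2 := Real.pi_pos
      have e3 := Real.sqrt_pos.2 e1
      positivity
    have e1 : DifferentiableAt ℂ (fun s : ℂ => ((Real.sqrt (π j).M / (2 * Real.pi) : ℝ) : ℂ) ^ s) s :=
      (differentiableAt_id).const_cpow (Or.inl (Complex.ofReal_ne_zero.2 hM.ne'))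
    have e2 : DifferentiableAt ℂ Complex.Gamma (s - (π j).r) := Complex.differentiableAt_Gamma _ fun m hm => by
      have h3 := congrArg Complex.re hm
      rw [Complex.sub_re, Complex.natCast_re, Complex.neg_re, Complex.natCast_re] at h3
      have h5 : (0 : ℝ) ≤ m := Nat.cast_nonneg m
      linarith [hrle j]
    exact e1.mul (e2.comp s (by fun_prop : DifferentiableAt ℂ (fun s : ℂ => s - ((π j).r : ℂ)) s))
  -- the identity in `Re s > i / 2`
  have hid : ∀ s : ℂ, (i : ℝ) / 2 < s.re → Λ s = gam π s * F (s - i / 2) := by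
    have hopen : IsOpen {s : ℂ | (i : ℝ) / 2 < s.re} := isOpen_lt continuous_const Complex.continuous_re
    have a1 : AnalyticOnNhd ℂ Λ {s : ℂ | (i : ℝ) / 2 < s.re} := fun z _ => h1'.1.analyticAt z
    have a2 : AnalyticOnNhd ℂ (fun s => gam π s * F (s - i / 2)) {s : ℂ | (i : ℝ) / 2 < s.re} := by
      refine DifferentiableOn.analyticOnNhd (fun z hz => ?_) hopen
      have e3 : DifferentiableAt ℂ (fun s : ℂ => F (s - i / 2)) z :=
        (hD.ld.diff.comp (by fun_prop : Differentiable ℂ fun s : ℂ => s - i / 2)) z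
      exact ((hgd z hz).mul e3).differentiableWithinAt
    intro s hs
    have hz0 : (((i : ℝ) / 2 + 2 : ℝ) : ℂ) ∈ {s : ℂ | (i : ℝ) / 2 < s.re} := by
      show (i : ℝ) / 2 < ((((i : ℝ) / 2 + 2 : ℝ) : ℂ)).re
      rw [Complex.ofReal_re]
      linarith
    refine a1.eqOn_of_preconnected_of_eventuallyEq a2 (convex_halfSpace_re_gt _).isPreconnected hz0 ?_ hs
    have h6 : ∀ᶠ z : ℂ in nhds (((i : ℝ) / 2 + 2 : ℝ) : ℂ), (i : ℝ) / 2 + 1 < z.re :=
      (Complex.continuous_re.tendsto _).eventually (lt_mem_nhds (by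
        rw [Complex.ofReal_re]
        linarith))
    filter_upwards [h6] with z hz
    obtain ⟨L, hL1, hL2⟩ := h1'.2 z hz
    rw [hL2, hL1.unique (hF z hz)]
  have hz : ∀ s : ℂ, (i : ℝ) / 2 < s.re → (Λ s = 0 ↔ F (s - i / 2) = 0) := by
    intro s hs
    rw [hid s hs]
    constructor
    · intro h
      exact (mul_eq_zero.1 h).resolve_left (hgne s hs)
    · intro h
      rw [h, mul_zero]
  have hsh : ∀ s : ℂ, (s - (i : ℂ) / 2).re = s.re - (i : ℝ) / 2 := by
    intro s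
    rw [Complex.sub_re]
    congr 1
    rw [show ((i : ℂ) / 2) = (((i : ℝ) / 2 : ℝ) : ℂ) by push_cast; ring, Complex.ofReal_re]
  -- symmetry
  have hsym : ∀ s : ℂ, Λ s = 0 → Λ (i + 1 - (starRingEnd ℂ) s) = 0 := by
    intro s hs
    rw [hfe, Complex.conj_conj, hs, map_zero, mul_zero]
  -- a zero gives a zero on the right
  have hright : ∀ ρ : ℂ, Λ ρ = 0 → ∃ r : ℂ, F r = 0 ∧ r.re = 1 / 2 + |ρ.re - ((i : ℝ) + 1) / 2| := by
    intro ρ hρ
    rcases le_or_gt (((i : ℝ) + 1) / 2) ρ.re with h1 | h1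
    · refine ⟨ρ - i / 2, (hz ρ (by linarith)).1 hρ, ?_⟩
      rw [abs_of_nonneg (by linarith), hsh]
      ring
    · have hre : ((i : ℂ) + 1 - (starRingEnd ℂ) ρ).re = i + 1 - ρ.re := by simp
      refine ⟨i + 1 - (starRingEnd ℂ) ρ - i / 2, (hz _ (by rw [hre]; linarith)).1 (hsym ρ hρ), ?_⟩
      rw [abs_of_neg (by linarith), hsh, hre]
      ring
  have hzf : ∀ θ : ℝ, 0 ≤ θ → ((∀ ρ : ℂ, Λ ρ = 0 → |ρ.re - ((i : ℝ) + 1) / 2| ≤ θ) ↔
      ∀ r : ℂ, F r = 0 → r.re ≤ 1 / 2 + θ) := by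
    intro θ hθ
    constructor
    · intro h r hr
      by_contra hc
      rw [not_le] at hc
      have hre : (r + i / 2).re = r.re + (i : ℝ) / 2 := by
        rw [Complex.add_re]
        congr 1
        rw [show ((i : ℂ) / 2) = (((i : ℝ) / 2 : ℝ) : ℂ) by push_cast; ring, Complex.ofReal_re]
      have h1 : Λ (r + i / 2) = 0 := (hz _ (by rw [hre]; linarith)).2 (by rw [add_sub_cancel_right]; exact hr)
      have h2 := h _ h1
      rw [hre] at h2
      have h3 := le_abs_self (r.re + (i : ℝ) / 2 - ((i : ℝ) + 1) / 2)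
      linarith
    · intro h ρ hρ
      obtain ⟨r, hr1, hr2⟩ := hright ρ hρ
      have := h r hr1
      linarith
  refine ⟨Λ, h1', fun Λ' h' => h2 Λ' h', ⟨W, hW, hfe⟩, ?_, ?_⟩
  · intro ρ η hρ hη hη0 μ τ hμ hτ
    obtain ⟨r, hr1, hr2⟩ := hright ρ hρ
    rw [hη] at hr2
    have hr3 := hD.ld.re_le hr1
    have hw : wid r.re = η / (1 - η) := by
      unfold wid
      rw [hr2]
      congr 1 <;> ring
    have h1 := hD.omega (P0 := 0) (ν := (i : ℝ) / 2) (μ := μ) (τ := τ) (by positivity) hsq hr1 (by linarith)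
      (by rw [hr2]; linarith) (by rw [hw]; exact hτ)
    obtain ⟨X₀, hX₀⟩ := Filter.eventually_atTop.1 h1
    refine ⟨X₀, fun X hX => ?_⟩
    have h2 := hX₀ X hX
    rw [← small_iff] at h2
    unfold Small at h2
    push Not at h2
    obtain ⟨x, y, h3, h4, h5, h6⟩ := h2
    exact ⟨x, y, h3, h4, h5, h6⟩
  · intro θ hθ hθ1
    have hcrit := hD.crit (P0 := 0) (ν := (i : ℝ) / 2) (θ := 1 / 2 + θ) (by linarith) (by linarith) (by positivity) hsq
    have hw : wid (1 / 2 + θ) = θ / (1 - θ) := by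
      unfold wid
      congr 1 <;> ring
    rw [hw, show (1 / 2 + θ + (i : ℝ) / 2 : ℝ) = ((i : ℝ) + 1) / 2 + θ by ring] at hcrit
    rw [hzf θ hθ]
    refine ⟨hcrit.1.trans ?_, hcrit.2.trans ?_⟩
    · refine forall₂_congr fun ε _ => ?_
      rw [Filter.frequently_atTop]
      simp only [small_iff]
    · refine forall₂_congr fun ε _ => ?_
      rw [Filter.eventually_atTop]
      refine exists_congr fun X₀ => forall₂_congr fun X _ => ?_
      rw [← small_iff]
      unfold Small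
      rw [neg_zero, Real.rpow_zero, show X * (1 + 1) = 2 * X by ring]

end Pool.Agent.Results.MP_7193be_nt.OneShortWindow
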